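import Pool.Agent.H333R2.Col.Pairs
import Pool.Agent.H333R2.St.Fin
import Pool.Agent.Results.MP_042ec1_co.BoundedCw

/-!
# COLOURING is polynomial for all four pairs `K_3` / paw, `P_1 + S_{1,1,3}` / `S_{1,2,3}`
-/

namespace Pool.Agent.Results.MP_b7219d_lc.AllFourPairs

open Pool.Agent.Helper856.PairStmt Pool.Agent.Helper856.Lcw Pool.Agent.H333R2.Col
open Pool.Agent.H333R2.St

/-- For each of the four pairs, COLOURING (graph and number of colours in the input) can be solved
in polynomial time on the graphs without the two induced subgraphs. -/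
theorem result :
    ColouringInPOn (fun _ G => G.CliqueFree 3 ∧ ¬ P1_S113.IsIndContained G) ∧
    ColouringInPOn (fun _ G => G.CliqueFree 3 ∧ ¬ S123.IsIndContained G) ∧
    ColouringInPOn (fun _ G => ¬ Paw.IsIndContained G ∧ ¬ P1_S113.IsIndContained G) ∧
    ColouringInPOn (fun _ G => ¬ Paw.IsIndContained G ∧ ¬ S123.IsIndContained G) := by
  obtain ⟨c1, h1⟩ := Pool.Agent.Results.MP_042ec1_co.BoundedCw.result
  obtain ⟨c2, h2⟩ := cw_K3_S123
  obtain ⟨c4, h4⟩ := cw_paw_S123
  refine ⟨colouringInPOn_of_cliqueWidth (c := c1) fun V _ G hG => (h1 V G hG.1 hG.2).1,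
    colouringInPOn_of_cliqueWidth (c := c2) fun V _ G hG => h2 V G hG.1 hG.2, ?_,
    colouringInPOn_of_cliqueWidth (c := c4) fun V _ G hG => h4 V G hG.1 hG.2⟩
  exact colouringInPOn_of_bounded ((Pool.Agent.Results.MP_849b2e_co.Classification.result _ _ _ _).2
    (Or.inl (Or.inr (Or.inr (Or.inr (Or.inl ⟨SimpleGraph.IsIndContained.refl _,
      Or.inr (Or.inr (Or.inr (Or.inl (SimpleGraph.IsIndContained.refl _))))⟩))))))

end Pool.Agent.Results.MP_b7219d_lc.AllFourPairs
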